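import Mathlib

/-!
# MP_b44c21_co

Every finite simple connected graph `G` satisfies `b(G) ≥ ⌊ē(G) + L(G)⌋`, where `b(G)` is the
largest order of an induced bipartite subgraph, `ē(G)` the average eccentricity, and `L(G)` the
maximum over vertices `v` of the independence number of the graph induced on the neighbourhood of `v`.
-/

set_option autoImplicit false

namespace Pool.Agent.Results.MP_b44c21_co.InducedBipartite

open SimpleGraph

variable {V : Type*} [Fintype V]

/-- The eccentricity of `v`: the maximum distance from `v` to a vertex. -/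
noncomputable def ecc (G : SimpleGraph V) (v : V) : ℕ :=
  Finset.univ.sup (fun u : V => G.dist v u)

/-- The average eccentricity of `G`. -/
noncomputable def avgEcc (G : SimpleGraph V) : ℝ :=
  (∑ v : V, (ecc G v : ℝ)) / (Fintype.card V : ℝ)

/-- `l(v)`: the independence number of the graph induced on the open neighbourhood of `v`. -/
noncomputable def nbhdIndep (G : SimpleGraph V) (v : V) : ℕ :=
  (G.induce (G.neighborSet v)).indepNum

/-- `L(G)`: the maximum of `l(v)` over all vertices `v`. -/
noncomputable def maxNbhdIndep (G : SimpleGraph V) : ℕ :=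
  Finset.univ.sup (fun v : V => nbhdIndep G v)

/-- `b(G)`: the largest number of vertices in a set inducing a bipartite graph. -/
noncomputable def bipNum (G : SimpleGraph V) : ℕ :=
  sSup {k : ℕ | ∃ S : Finset V, S.card = k ∧ (G.induce (S : Set V)).IsBipartite}

omit [Fintype V] in
/-- A geodesic as a sequence of vertices. -/
lemma exists_geodesic {G : SimpleGraph V} (hG : G.Connected) (u w : V) :
    ∃ p : ℕ → V, p 0 = u ∧ p (G.dist u w) = w ∧
      ∀ i j, i ≤ j → j ≤ G.dist u w → G.dist (p i) (p j) = j - i := by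
  obtain ⟨q, hq⟩ := hG.exists_walk_length_eq_dist u w
  refine ⟨q.getVert, q.getVert_zero, ?_, ?_⟩
  · rw [← hq]; exact q.getVert_length
  · intro i j hij hj
    have h1 : G.dist u (q.getVert i) ≤ i := by
      have := dist_le (q.take i)
      refine this.trans ?_
      rw [Walk.take_length]
      exact min_le_left _ _
    have h2 : G.dist (q.getVert j) w ≤ G.dist u w - j := by
      have := dist_le (q.drop j)
      rw [Walk.drop_length] at this
      omega
    have h3 : G.dist (q.getVert i) (q.getVert j) ≤ j - i := by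
      have h4 := dist_le ((q.drop i).take (j - i))
      rw [Walk.take_length, Walk.drop_getVert] at h4
      have : i + (j - i) = j := by omega
      have h5 := h4.trans (min_le_left _ _)
      rwa [this] at h5
    have h6 : G.dist u w ≤ G.dist u (q.getVert i) + G.dist (q.getVert i) w := hG.dist_triangle
    have h7 : G.dist (q.getVert i) w ≤
        G.dist (q.getVert i) (q.getVert j) + G.dist (q.getVert j) w := hG.dist_triangle
    omega

/-- A set which is the union of two independent sets is bounded by `bipNum`. -/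
lemma card_le_bipNum [DecidableEq V] (G : SimpleGraph V) (A B : Finset V)
    (hA : ∀ x ∈ A, ∀ y ∈ A, ¬ G.Adj x y) (hB : ∀ x ∈ B, ∀ y ∈ B, ¬ G.Adj x y) :
    (A ∪ B).card ≤ bipNum G := by
  apply le_csSup
  · refine ⟨Fintype.card V, ?_⟩
    rintro k ⟨S, rfl, -⟩
    exact Finset.card_le_univ S
  · refine ⟨A ∪ B, rfl, ?_⟩
    refine ⟨Coloring.mk (fun x => if (x : V) ∈ A then (0 : Fin 2) else 1) ?_⟩
    rintro ⟨x, hx⟩ ⟨y, hy⟩ hxy
    simp only [comap_adj, Function.Embedding.subtype_apply] at hxy
    simp only [Finset.coe_union, Set.mem_union, Finset.mem_coe] at hx hy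
    by_cases h1 : x ∈ A <;> by_cases h2 : y ∈ A
    · exact absurd hxy (hA x h1 y h2)
    · simp [h1, h2]
    · simp [h1, h2]
    · have h3 : x ∈ B := by tauto
      have h4 : y ∈ B := by tauto
      exact absurd hxy (hB x h3 y h4)

/-- The main combinatorial construction: a star together with a part of a geodesic. -/
lemma core (G : SimpleGraph V) (hG : G.Connected) (v : V) (I : Finset V)
    (hI : ∀ x ∈ I, G.Adj v x) (hind : ∀ x ∈ I, ∀ y ∈ I, ¬ G.Adj x y)
    (p : ℕ → V) (T : Finset ℕ) (m : ℕ)
    (hp : ∀ i ∈ T, ∀ j ∈ T, i ≤ j → G.dist (p i) (p j) = j - i)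
    (h2 : ∀ i ∈ T, 2 ≤ G.dist v (p i))
    (h3 : ∀ i ∈ T, G.dist v (p i) = 2 → i % 2 = m % 2) :
    1 + I.card + T.card ≤ bipNum G := by
  classical
  set A : Finset V := insert v ((T.filter (fun i => i % 2 = m % 2)).image p) with hAdef
  set B : Finset V := I ∪ (T.filter (fun i => ¬ i % 2 = m % 2)).image p with hBdef
  have hpar : ∀ i ∈ T, ∀ j ∈ T, i % 2 = j % 2 → ¬ G.Adj (p i) (p j) := by
    intro i hi j hj hij hadj
    have hd := dist_eq_one_iff_adj.mpr hadj
    rcases le_total i j with h | h
    · have := hp i hi j hj h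
      omega
    · have := hp j hj i hi h
      rw [dist_comm] at this
      omega
  have hA : ∀ x ∈ A, ∀ y ∈ A, ¬ G.Adj x y := by
    intro x hx y hy hadj
    simp only [hAdef, Finset.mem_insert, Finset.mem_image, Finset.mem_filter] at hx hy
    rcases hx with rfl | ⟨i, ⟨hi, him⟩, rfl⟩
    · rcases hy with rfl | ⟨j, ⟨hj, hjm⟩, rfl⟩
      · exact G.loopless.irrefl _ hadj
      · have := h2 j hj
        have hd := dist_eq_one_iff_adj.mpr hadj
        omega
    · rcases hy with rfl | ⟨j, ⟨hj, hjm⟩, rfl⟩
      · have := h2 i hi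
        have hd := dist_eq_one_iff_adj.mpr hadj.symm
        omega
      · exact hpar i hi j hj (by omega) hadj
  have hIp : ∀ x ∈ I, ∀ i ∈ T, ¬ i % 2 = m % 2 → ¬ G.Adj x (p i) := by
    intro x hx i hi him hadj
    have e1 := dist_eq_one_iff_adj.mpr hadj
    have e2 := dist_eq_one_iff_adj.mpr (hI x hx)
    have e3 : G.dist v (p i) ≤ G.dist v x + G.dist x (p i) := hG.dist_triangle
    have e4 := h2 i hi
    exact him (h3 i hi (by omega))
  have hB : ∀ x ∈ B, ∀ y ∈ B, ¬ G.Adj x y := by
    intro x hx y hy hadj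
    simp only [hBdef, Finset.mem_union, Finset.mem_image, Finset.mem_filter] at hx hy
    rcases hx with hx | ⟨i, ⟨hi, him⟩, rfl⟩
    · rcases hy with hy | ⟨j, ⟨hj, hjm⟩, rfl⟩
      · exact hind x hx y hy hadj
      · exact hIp x hx j hj hjm hadj
    · rcases hy with hy | ⟨j, ⟨hj, hjm⟩, rfl⟩
      · exact hIp y hy i hi him hadj.symm
      · exact hpar i hi j hj (by omega) hadj
  refine le_trans (le_of_eq ?_) (card_le_bipNum G A B hA hB)
  have hinj : Set.InjOn p (T : Set ℕ) := by
    intro i hi j hj hij
    rcases le_total i j with h | h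
    · have := hp i hi j hj h
      rw [hij, dist_self] at this
      omega
    · have := hp j hj i hi h
      rw [hij, dist_self] at this
      omega
  have hAB : A ∪ B = insert v (I ∪ T.image p) := by
    ext x
    simp only [hAdef, hBdef, Finset.mem_union, Finset.mem_insert, Finset.mem_image,
      Finset.mem_filter]
    constructor
    · rintro ((rfl | ⟨i, ⟨hi, -⟩, rfl⟩) | (hx | ⟨i, ⟨hi, -⟩, rfl⟩))
      · exact Or.inl rfl
      · exact Or.inr (Or.inr ⟨i, hi, rfl⟩)
      · exact Or.inr (Or.inl hx)
      · exact Or.inr (Or.inr ⟨i, hi, rfl⟩)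
    · rintro (rfl | hx | ⟨i, hi, rfl⟩)
      · exact Or.inl (Or.inl rfl)
      · exact Or.inr (Or.inl hx)
      · by_cases him : i % 2 = m % 2
        · exact Or.inl (Or.inr ⟨i, ⟨hi, him⟩, rfl⟩)
        · exact Or.inr (Or.inr ⟨i, ⟨hi, him⟩, rfl⟩)
  have hvnot : v ∉ I ∪ T.image p := by
    simp only [Finset.mem_union, Finset.mem_image, not_or, not_exists, not_and]
    refine ⟨fun hv => G.loopless.irrefl _ (hI v hv), ?_⟩
    intro i hi hvi
    have := h2 i hi
    rw [hvi, dist_self] at this
    omega
  have hdisj : Disjoint I (T.image p) := by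
    rw [Finset.disjoint_left]
    intro x hx hx'
    simp only [Finset.mem_image] at hx'
    obtain ⟨i, hi, rfl⟩ := hx'
    have := h2 i hi
    have hd := dist_eq_one_iff_adj.mpr (hI _ hx)
    omega
  rw [hAB, Finset.card_insert_of_notMem hvnot, Finset.card_union_of_disjoint hdisj,
    Finset.card_image_of_injOn hinj]
  ring

omit [Fintype V] in
/-- An independent set of neighbours of `v` of size `l(v)`. -/
lemma exists_star (G : SimpleGraph V) (v : V) :
    ∃ I : Finset V, (∀ x ∈ I, G.Adj v x) ∧ (∀ x ∈ I, ∀ y ∈ I, ¬ G.Adj x y) ∧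
      I.card = nbhdIndep G v := by
  classical
  obtain ⟨s, hs⟩ := (G.induce (G.neighborSet v)).exists_isNIndepSet_indepNum
  refine ⟨s.map (Function.Embedding.subtype _), ?_, ?_, ?_⟩
  · intro x hx
    simp only [Finset.mem_map, Function.Embedding.subtype_apply] at hx
    obtain ⟨a, -, rfl⟩ := hx
    exact a.2
  · intro x hx y hy hadj
    simp only [Finset.mem_map, Function.Embedding.subtype_apply] at hx hy
    obtain ⟨a, ha, rfl⟩ := hx
    obtain ⟨b, hb, rfl⟩ := hy
    have hne : a ≠ b := by
      rintro rfl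
      exact G.loopless.irrefl _ hadj
    exact hs.1 ha hb hne hadj
  · rw [Finset.card_map]
    exact hs.2

lemma dist_le_ecc (G : SimpleGraph V) (v u : V) : G.dist v u ≤ ecc G v :=
  Finset.le_sup (f := fun u : V => G.dist v u) (Finset.mem_univ u)

lemma exists_dist_eq_ecc (G : SimpleGraph V) (v : V) : ∃ u, G.dist v u = ecc G v := by
  have : Nonempty V := ⟨v⟩
  obtain ⟨u, -, hu⟩ := Finset.exists_mem_eq_sup (Finset.univ : Finset V) Finset.univ_nonempty
    (fun u : V => G.dist v u)
  exact ⟨u, hu.symm⟩

/-- First bound: `l(v) + ecc(v) ≤ b(G)` for every vertex `v`. -/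
lemma bound_ecc (G : SimpleGraph V) (hG : G.Connected) (v : V) :
    nbhdIndep G v + ecc G v ≤ bipNum G := by
  obtain ⟨I, hI, hind, hcard⟩ := exists_star G v
  obtain ⟨w, hw⟩ := exists_dist_eq_ecc G v
  obtain ⟨p, hp0, -, hp⟩ := exists_geodesic hG v w
  have hd : ∀ i, i ≤ G.dist v w → G.dist v (p i) = i := by
    intro i hi
    have := hp 0 i (Nat.zero_le _) hi
    rw [hp0] at this
    simpa using this
  have := core G hG v I hI hind p (Finset.Icc 2 (G.dist v w)) 0
    (fun i _ j hj hij => hp i j hij (Finset.mem_Icc.mp hj).2)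
    (fun i hi => by
      rw [hd i (Finset.mem_Icc.mp hi).2]
      exact (Finset.mem_Icc.mp hi).1)
    (fun i hi h => by
      rw [hd i (Finset.mem_Icc.mp hi).2] at h
      subst h
      rfl)
  rw [Nat.card_Icc, hcard, hw] at this
  omega

/-- Second bound: `l(v) + d(u,w) - 1 ≤ b(G)` for all vertices `v`, `u`, `w`. -/
lemma bound_dist (G : SimpleGraph V) (hG : G.Connected) (v u w : V) :
    nbhdIndep G v + G.dist u w ≤ bipNum G + 1 := by
  obtain ⟨I, hI, hind, hcard⟩ := exists_star G v
  obtain ⟨p, -, -, hp⟩ := exists_geodesic hG u w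
  set D := G.dist u w with hD
  have htri : ∀ i j, i ≤ j → j ≤ D → j - i ≤ G.dist v (p i) + G.dist v (p j) := by
    intro i j hij hj
    have h1 := hp i j hij hj
    have h2 : G.dist (p i) (p j) ≤ G.dist (p i) v + G.dist v (p j) := hG.dist_triangle
    rw [dist_comm (u := p i) (v := v)] at h2
    omega
  -- the centre of the window
  obtain ⟨m, hm1, hm⟩ : ∃ m : ℕ, 1 ≤ m ∧ ∀ i, i ≤ D → G.dist v (p i) ≤ 2 →
      (m ≤ i + 2 ∧ i ≤ m + 2) ∧ (G.dist v (p i) ≤ 1 → m ≤ i + 1 ∧ i ≤ m + 1) := by
    classical
    by_cases hex : ∃ i, i ≤ D ∧ G.dist v (p i) ≤ 2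
    · let s := Nat.find hex
      have hs : s ≤ D ∧ G.dist v (p s) ≤ 2 := Nat.find_spec hex
      have hmin : ∀ i, i ≤ D → G.dist v (p i) ≤ 2 → s ≤ i := fun i h1 h2 =>
        Nat.find_min' hex ⟨h1, h2⟩
      by_cases h2 : G.dist v (p s) = 2
      · refine ⟨s + 2, by omega, ?_⟩
        intro i hi hi2
        have h3 := hmin i hi hi2
        have h4 := htri s i h3 hi
        refine ⟨by omega, ?_⟩
        intro h5
        have : i ≠ s := by
          rintro rfl
          omega
        omega
      · refine ⟨s + 1, by omega, ?_⟩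
        intro i hi hi2
        have h3 := hmin i hi hi2
        have h4 := htri s i h3 hi
        refine ⟨by omega, ?_⟩
        intro h5
        omega
    · refine ⟨1, le_refl _, ?_⟩
      intro i hi hi2
      exact absurd ⟨i, hi, hi2⟩ hex
  have hcore := core G hG v I hI hind p
    ((Finset.range (D + 1)) \ {m - 1, m, m + 1}) m
    (fun i _ j hj hij => hp i j hij (by
      have := (Finset.mem_sdiff.mp hj).1
      rw [Finset.mem_range] at this
      omega))
    (fun i hi => by
      rw [Finset.mem_sdiff, Finset.mem_range] at hi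
      simp only [Finset.mem_insert, Finset.mem_singleton, not_or] at hi
      by_contra hlt
      have := (hm i (by omega) (by omega)).2 (by omega)
      omega)
    (fun i hi h => by
      rw [Finset.mem_sdiff, Finset.mem_range] at hi
      simp only [Finset.mem_insert, Finset.mem_singleton, not_or] at hi
      have := (hm i (by omega) (by omega)).1
      omega)
  have hc : D + 1 - 3 ≤ ((Finset.range (D + 1)) \ {m - 1, m, m + 1}).card := by
    have h1 := Finset.le_card_sdiff ({m - 1, m, m + 1} : Finset ℕ) (Finset.range (D + 1))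
    have h2 : ({m - 1, m, m + 1} : Finset ℕ).card ≤ 3 := Finset.card_le_three
    rw [Finset.card_range] at h1
    omega
  rw [hcard] at hcore
  omega

/-- **Theorem.** For every finite simple connected graph `G`,
`⌊ē(G) + L(G)⌋ ≤ b(G)`. -/
theorem result (V : Type*) [Fintype V] (G : SimpleGraph V) (hG : G.Connected) :
    ⌊avgEcc G + (maxNbhdIndep G : ℝ)⌋ ≤ (bipNum G : ℤ) := by
  classical
  have hne : Nonempty V := hG.nonempty
  obtain ⟨v, -, hv⟩ := Finset.exists_mem_eq_sup (Finset.univ : Finset V) Finset.univ_nonempty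
    (fun v : V => nbhdIndep G v)
  change maxNbhdIndep G = nbhdIndep G v at hv
  obtain ⟨u, -, hu⟩ := Finset.exists_mem_eq_sup (Finset.univ : Finset V) Finset.univ_nonempty
    (fun v : V => ecc G v)
  set D : ℕ := Finset.univ.sup (fun v : V => ecc G v) with hD
  have hle : ∀ x, ecc G x ≤ D := fun x =>
    Finset.le_sup (f := fun v : V => ecc G v) (Finset.mem_univ x)
  obtain ⟨w, hw⟩ := exists_dist_eq_ecc G u
  have hn : (0 : ℝ) < (Fintype.card V : ℝ) := by
    exact_mod_cast Fintype.card_pos
  have key : avgEcc G + (maxNbhdIndep G : ℝ) < (bipNum G : ℝ) + 1 := by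
    by_cases hall : ∀ x, ecc G x = D
    · have h1 := bound_ecc G hG v
      rw [← hv, hall v] at h1
      have h2 : avgEcc G = D := by
        unfold avgEcc
        rw [Finset.sum_congr rfl (fun x _ => by rw [hall x])]
        rw [Finset.sum_const, Finset.card_univ, nsmul_eq_mul]
        field_simp
      rw [h2]
      have h3 : ((maxNbhdIndep G : ℝ) + (D : ℝ)) ≤ (bipNum G : ℝ) := by exact_mod_cast h1
      linarith
    · push Not at hall
      obtain ⟨x, hx⟩ := hall
      have h1 := bound_dist G hG v u w
      rw [← hv, hw, ← hu] at h1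
      have h2 : avgEcc G < D := by
        unfold avgEcc
        rw [div_lt_iff₀ hn]
        have h4 : (∑ v : V, (ecc G v : ℝ)) < ∑ _v : V, (D : ℝ) := by
          apply Finset.sum_lt_sum
          · intro i _
            exact_mod_cast hle i
          · exact ⟨x, Finset.mem_univ x, by exact_mod_cast lt_of_le_of_ne (hle x) hx⟩
        rw [Finset.sum_const, Finset.card_univ, nsmul_eq_mul] at h4
        linarith
      have h3 : ((maxNbhdIndep G : ℝ) + (D : ℝ)) ≤ (bipNum G : ℝ) + 1 := by exact_mod_cast h1
      linarith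
  have h5 : ⌊avgEcc G + (maxNbhdIndep G : ℝ)⌋ < (bipNum G : ℤ) + 1 := by
    rw [Int.floor_lt]
    push_cast
    exact key
  omega

end Pool.Agent.Results.MP_b44c21_co.InducedBipartite
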